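import Pool.Agent.Lib.MP_7cd5ec_co.Amp.Gate

/-!
# MP_7cd5ec_co, package Amp: amplification of lower bounds

If some digraph with all outdegrees at least `m` is not `(s₀,t₀)`-splittable, and
`p (s₀ - 1) + q (t₀ - 1) + d ≤ m` whenever `p (s - 1) + q (t - 1) < d`, then some digraph with all
outdegrees at least `d` is not `(s,t)`-splittable.
-/

set_option autoImplicit false

namespace Pool.Agent.SplitLB

open Finset

/-- transport to `Fin n` -/
theorem bad_of {V : Type} [Fintype V] [Nonempty V] {s t d : ℕ} (E : V → V → Prop)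
    (hirr : ∀ v, ¬ E v v) (hdeg : ∀ v, d ≤ {w | E v w}.ncard)
    (hns : ∀ S : Set V, S.Nonempty → Sᶜ.Nonempty → (∀ v ∈ S, s ≤ {w | w ∈ S ∧ E v w}.ncard) →
      (∀ v ∈ Sᶜ, t ≤ {w | w ∈ Sᶜ ∧ E v w}.ncard) → False) : Bad s t d := by
  classical
  set e := Fintype.equivFin V with he
  have key : ∀ (P : V → Prop), {y : Fin (Fintype.card V) | P (e.symm y)}.ncard = {w | P w}.ncard := by
    intro P
    rw [← Set.ncard_image_of_injective {w | P w} e.injective]
    congr 1
    ext y
    constructor
    · intro hy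
      exact ⟨e.symm y, hy, by simp⟩
    · rintro ⟨w, hw, rfl⟩
      change P (e.symm (e w))
      rw [Equiv.symm_apply_apply]
      exact hw
  refine ⟨Fintype.card V, fun x y => E (e.symm x) (e.symm y), Fintype.card_pos, fun v => hirr _,
    fun v => ?_, ?_⟩
  · rw [key fun w => E (e.symm v) w]
    exact hdeg _
  · rintro ⟨A, ⟨x, hx⟩, ⟨y, hy⟩, h1, h2⟩
    refine hns (e ⁻¹' A) ⟨e.symm x, by simpa using hx⟩ ⟨e.symm y, by simpa using hy⟩ ?_ ?_
    · intro v hv
      have h3 := h1 (e v) hv
      have h4 := key fun w => w ∈ e ⁻¹' A ∧ E v w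
      refine h3.trans (le_of_eq ?_)
      rw [← h4]
      congr 1
      ext z
      simp
    · intro v hv
      have h3 := h2 (e v) hv
      have h4 := key fun w => w ∈ (e ⁻¹' A)ᶜ ∧ E v w
      refine h3.trans (le_of_eq ?_)
      rw [← h4]
      congr 1
      ext z
      simp

/-- **Amplification.** -/
theorem amp {s t d s0 t0 m : ℕ} (hs : 1 ≤ s) (ht : 1 ≤ t) (hb : Bad s0 t0 m)
    (hP : ∀ p q : ℕ, p * (s - 1) + q * (t - 1) < d → p * (s0 - 1) + q * (t0 - 1) + d ≤ m) :
    Bad s t d := by
  classical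
  obtain ⟨n, Adj, hn, hirr, hdeg, hsp⟩ := hb
  set N : Fin n → Finset (Fin n) := fun a => univ.filter (Adj a) with hN
  have hNc : ∀ a, m ≤ (N a).card := by
    intro a
    refine (hdeg a).trans (le_of_eq ?_)
    rw [← Set.ncard_coe_finset]
    congr 1
    ext w
    simp [hN]
  set FA : Fin n → Finset (Finset (Fin n)) := fun a =>
    univ.filter fun X => (N a ∩ X).card < s0 with hFA
  set FB : Fin n → Finset (Finset (Fin n)) := fun a =>
    univ.filter fun X => (N a ∩ X).card < t0 with hFB
  have hgood : ∀ a, Good s t d (FA a, FB a) := by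
    intro a A hA B hB hlt
    have h1 : N a ⊆ unc (A, B) ∪ (A.biUnion (fun X => N a ∩ X) ∪ B.biUnion (fun X => N a ∩ X)) := by
      intro x hx
      by_cases hu : x ∈ unc (A, B)
      · exact mem_union_left _ hu
      · refine mem_union_right _ ?_
        rw [mem_unc] at hu
        by_contra hc
        rw [mem_union, not_or, mem_biUnion, mem_biUnion] at hc
        apply hu
        constructor
        · intro X hX hxX
          exact hc.1 ⟨X, hX, mem_inter.2 ⟨hx, hxX⟩⟩
        · intro X hX hxX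
          exact hc.2 ⟨X, hX, mem_inter.2 ⟨hx, hxX⟩⟩
    have h2 : (A.biUnion (fun X => N a ∩ X)).card ≤ A.card * (s0 - 1) := by
      refine card_biUnion_le_card_mul _ _ _ fun X hX => ?_
      have := (mem_filter.1 (hA hX)).2
      omega
    have h3 : (B.biUnion (fun X => N a ∩ X)).card ≤ B.card * (t0 - 1) := by
      refine card_biUnion_le_card_mul _ _ _ fun X hX => ?_
      have := (mem_filter.1 (hB hX)).2
      omega
    have h4 := card_le_card h1
    have h5 := card_union_le (unc (A, B)) (A.biUnion (fun X => N a ∩ X) ∪ B.biUnion (fun X => N a ∩ X))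
    have h6 := card_union_le (A.biUnion (fun X => N a ∩ X)) (B.biUnion (fun X => N a ∩ X))
    have h7 := hP _ _ hlt
    have h8 := hNc a
    omega
  have h0 : Good s t d (∅, (∅ : Finset (Finset (Fin n)))) :=
    (hgood ⟨0, hn⟩).mono (empty_subset _) (empty_subset _)
  haveI : Nonempty (GV (Fin n) s t d) := ⟨Sum.inl ⟨0, hn⟩⟩
  refine bad_of (GE s t d FA FB) (GE_irrefl h0) GE_outdeg ?_
  intro S hSne hSne' hS hS'
  -- the colours of the hubs
  set X : Finset (Fin n) := univ.filter fun a => (Sum.inl a : GV (Fin n) s t d) ∈ S with hX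
  have hXm : ∀ a, a ∈ X ↔ (Sum.inl a : GV (Fin n) s t d) ∈ S := fun a => by simp [hX]
  have hXm' : ∀ a, a ∈ Xᶜ ↔ (Sum.inl a : GV (Fin n) s t d) ∈ Sᶜ := fun a => by
    rw [mem_compl, hXm, Set.mem_compl_iff]
  by_cases hXe : X = ∅
  · obtain ⟨v, hv⟩ := hSne
    exact gate_free h0 hs S hS (fun a ha => by
      have := (hXm a).2 ha
      rw [hXe] at this
      exact notMem_empty _ this) v hv
  by_cases hXe' : Xᶜ = ∅
  · obtain ⟨v, hv⟩ := hSne'
    exact gate_free h0 ht Sᶜ hS' (fun a ha => by
      have := (hXm' a).2 ha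
      rw [hXe'] at this
      exact notMem_empty _ this) v hv
  apply hsp
  obtain ⟨x, hx⟩ := nonempty_iff_ne_empty.2 hXe
  obtain ⟨y, hy⟩ := nonempty_iff_ne_empty.2 hXe'
  refine ⟨(X : Set (Fin n)), ⟨x, hx⟩, ⟨y, by simpa using hy⟩, ?_, ?_⟩
  · intro a ha
    by_contra hlt
    push Not at hlt
    have h1 : X ∈ FA a := by
      rw [hFA, mem_filter]
      refine ⟨mem_univ _, lt_of_eq_of_lt ?_ hlt⟩
      rw [← Set.ncard_coe_finset]
      congr 1
      ext w
      simp [hN, and_comm]
    have h2 := hS (Sum.inl a) ((hXm a).1 ha)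
    have e : {w | w ∈ S ∧ GE s t d FA FB (Sum.inl a) w} = ∅ := by
      ext w
      simp only [Set.mem_ofPred_eq, Set.mem_empty_iff_false, iff_false, not_and]
      rintro hw hE
      rcases w with z | ⟨q, j⟩
      · exact hE
      · have hq : q = (FA a, FB a) := hE
        subst hq
        exact gate_A hs S hS X hXm _ _ le_rfl (hgood a) h1 j hw
    rw [e, Set.ncard_empty] at h2
    omega
  · intro a ha
    by_contra hlt
    push Not at hlt
    have h1 : Xᶜ ∈ FB a := by
      rw [hFB, mem_filter]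
      refine ⟨mem_univ _, lt_of_eq_of_lt ?_ hlt⟩
      rw [← Set.ncard_coe_finset]
      congr 1
      ext w
      simp [hN, and_comm]
    have h2 := hS' (Sum.inl a) ((hXm' a).1 (by simpa using ha))
    have e : {w | w ∈ Sᶜ ∧ GE s t d FA FB (Sum.inl a) w} = ∅ := by
      ext w
      simp only [Set.mem_ofPred_eq, Set.mem_empty_iff_false, iff_false, not_and]
      rintro hw hE
      rcases w with z | ⟨q, j⟩
      · exact hE
      · have hq : q = (FA a, FB a) := hE
        subst hq
        exact gate_B ht Sᶜ hS' Xᶜ hXm' _ _ le_rfl (hgood a) h1 j hw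
    rw [e, Set.ncard_empty] at h2
    omega

end Pool.Agent.SplitLB
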