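import Pool.Agent.Lib.MP_7cd5ec_co.Amp.Lin

/-!
# MP_7cd5ec_co, package Amp: the asymptotic behaviour of `f(s,t)` for `s, t ≥ 2`
-/

set_option autoImplicit false

namespace Pool.Agent.SplitLB

open Finset

theorem Bad.symm {s t m : ℕ} (h : Bad s t m) : Bad t s m := by
  obtain ⟨n, Adj, hn, hirr, hdeg, hsp⟩ := h
  refine ⟨n, Adj, hn, hirr, hdeg, fun ⟨A, h1, h2, h3, h4⟩ => hsp ⟨Aᶜ, h2, by rwa [compl_compl],
    h4, ?_⟩⟩
  rw [compl_compl]
  exact h3

/-- the maximum of the linear forms `p (s - 1) + q (t - 1)` over a finite set of pairs `(p, q)` -/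
def mx (P : Finset (ℕ × ℕ)) (s t : ℕ) : ℕ := P.sup fun x => x.1 * (s - 1) + x.2 * (t - 1)

theorem le_mx {P : Finset (ℕ × ℕ)} {x : ℕ × ℕ} (hx : x ∈ P) (s t : ℕ) :
    x.1 * (s - 1) + x.2 * (t - 1) ≤ mx P s t :=
  Finset.le_sup (f := fun x : ℕ × ℕ => x.1 * (s - 1) + x.2 * (t - 1)) hx

theorem mx_mono {P Q : Finset (ℕ × ℕ)} (h : P ⊆ Q) (s t : ℕ) : mx P s t ≤ mx Q s t :=
  Finset.sup_mono h

/-- `f(s,t) ≤ mx P s t + C` for all `s, t ≥ 1` -/
def Nice (P : Finset (ℕ × ℕ)) : Prop := ∃ C, ∀ s t, 1 ≤ s → 1 ≤ t → ¬ Bad s t (mx P s t + C)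

theorem Nice.mono {P Q : Finset (ℕ × ℕ)} (h : Nice P) (hPQ : P ⊆ Q) : Nice Q := by
  obtain ⟨C, hC⟩ := h
  exact ⟨C, fun s t hs ht hb => hC s t hs ht (hb.mono (Nat.add_le_add_right (mx_mono hPQ s t) C))⟩

theorem bad_of_not_nice {P : Finset (ℕ × ℕ)} (h : ¬ Nice P) {s t d : ℕ} (hs : 1 ≤ s) (ht : 1 ≤ t)
    (hP : ∀ p q, p * (s - 1) + q * (t - 1) < d → (p, q) ∈ P) : Bad s t d := by
  rw [Nice] at h
  push Not at h
  obtain ⟨s0, t0, hs0, ht0, hb⟩ := h d
  exact amp hs ht hb fun p q hpq => Nat.add_le_add_right (le_mx (hP p q hpq) s0 t0) d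

/-- minimal elements -/
theorem fin_min {α : Type} [PartialOrder α] [WellQuasiOrderedLE α] (U : Set α) :
    ∃ M : Finset α, (∀ m ∈ M, m ∈ U) ∧ ∀ x ∈ U, ∃ m ∈ M, m ≤ x := by
  classical
  have h1 : {x | Minimal (fun y => y ∈ U) x}.Finite :=
    WellQuasiOrderedLE.finite_of_isAntichain (setOf_minimal_antichain _)
  refine ⟨h1.toFinset, fun m hm => ?_, fun x hx => ?_⟩
  · rw [Set.Finite.mem_toFinset] at hm
    exact hm.1
  · obtain ⟨m, hm1, hm2⟩ := exists_minimal_le_of_wellFoundedLT (fun y => y ∈ U) x hx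
    exact ⟨m, by rw [Set.Finite.mem_toFinset]; exact hm2, hm1⟩

/-- the down-set with the row lengths `l` -/
def PP {F : ℕ} (l : Fin F → ℕ) : Finset (ℕ × ℕ) :=
  univ.biUnion fun q : Fin F => (range (l q)).image fun p => (p, q.1)

theorem mem_PP {F : ℕ} {l : Fin F → ℕ} {x : ℕ × ℕ} :
    x ∈ PP l ↔ ∃ h : x.2 < F, x.1 < l ⟨x.2, h⟩ := by
  rw [PP, mem_biUnion]
  constructor
  · rintro ⟨q, -, h⟩
    rw [mem_image] at h
    obtain ⟨p, hp, rfl⟩ := h
    exact ⟨q.2, by simpa using hp⟩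
  · rintro ⟨h1, h2⟩
    exact ⟨⟨x.2, h1⟩, mem_univ _, mem_image.2 ⟨x.1, mem_range.2 h2, rfl⟩⟩

theorem PP_mono {F : ℕ} {l l' : Fin F → ℕ} (h : l ≤ l') : PP l ⊆ PP l' := by
  intro x hx
  rw [mem_PP] at hx ⊢
  obtain ⟨h1, h2⟩ := hx
  exact ⟨h1, h2.trans_le (h _)⟩

/-- exchange of the coordinates -/
def sw (P : Finset (ℕ × ℕ)) : Finset (ℕ × ℕ) := P.image Prod.swap

theorem mx_sw (P : Finset (ℕ × ℕ)) (s t : ℕ) : mx (sw P) s t = mx P t s := by
  rw [mx, sw, sup_image, mx]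
  congr 1
  ext x
  simp [add_comm]

theorem sw_sw (P : Finset (ℕ × ℕ)) : sw (sw P) = P := by
  rw [sw, sw, image_image]
  simp

theorem Nice.sw {P : Finset (ℕ × ℕ)} (h : Nice P) : Nice (sw P) := by
  obtain ⟨C, hC⟩ := h
  refine ⟨C, fun s t hs ht hb => hC t s ht hs ?_⟩
  rw [mx_sw] at hb
  exact hb.symm

/-- every nice set contains a pair with a large sum -/
theorem Nice.three {P : Finset (ℕ × ℕ)} (h : Nice P) : ∃ x ∈ P, 3 ≤ x.1 + x.2 := by
  by_contra hc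
  push Not at hc
  obtain ⟨C, hC⟩ := h
  obtain ⟨K, m, hK, hb, hm⟩ := gain 1 le_rfl (C + 1)
  rw [one_mul] at hb hm
  refine hC K K hK hK (hb.mono ?_)
  have : mx P K K ≤ 2 * (K - 1) := by
    rw [mx, Finset.sup_le_iff]
    intro x hx
    rw [← add_mul]
    exact Nat.mul_le_mul_right _ (by have := hc x hx; omega)
  omega

/-- The case `s ≤ t` of the lower bound. -/
theorem low {F : ℕ} (hF : ¬ Bad 2 2 F) {M : Finset (Fin F → ℕ)}
    (hM2 : ∀ l : Fin F → ℕ, Nice (PP l) → ∃ m ∈ M, m ≤ l) {s t g : ℕ} (hs : 2 ≤ s) (hst : s ≤ t)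
    (hg : ∀ m ∈ M, g ≤ mx (PP m) s t) : Bad s t g := by
  classical
  rcases Nat.eq_zero_or_pos g with rfl | hg0
  · exact (tKn s t (by omega) (by omega)).mono (Nat.zero_le _)
  -- `g ≤ (F - 1) (t - 1)`
  have h1 : g ≤ (F - 1) * (t - 1) := by
    have hN : Nice (PP fun q : Fin F => F - q.1) := by
      by_contra hn
      refine hF (bad_of_not_nice hn (by norm_num) (by norm_num) fun p q hpq => ?_)
      rw [mem_PP]
      have h2 : p + q < F := by simpa using hpq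
      exact ⟨by dsimp only; omega, by dsimp only; omega⟩
    obtain ⟨m, hm, hml⟩ := hM2 _ hN
    refine (hg m hm).trans ((mx_mono (PP_mono hml) s t).trans ?_)
    rw [mx, Finset.sup_le_iff]
    intro x hx
    rw [mem_PP] at hx
    obtain ⟨h2, h3⟩ := hx
    dsimp only at h3
    calc x.1 * (s - 1) + x.2 * (t - 1) ≤ x.1 * (t - 1) + x.2 * (t - 1) :=
          Nat.add_le_add_right (Nat.mul_le_mul_left _ (by omega)) _
      _ = (x.1 + x.2) * (t - 1) := by rw [add_mul]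
      _ ≤ (F - 1) * (t - 1) := Nat.mul_le_mul_right _ (by omega)
  set l : Fin F → ℕ := fun q => (g - q.1 * (t - 1)) ⌈/⌉ (s - 1) with hl
  have hlm : ∀ (p : ℕ) (q : Fin F), p < l q ↔ p * (s - 1) + q.1 * (t - 1) < g := by
    intro p q
    rw [hl]
    dsimp only
    rw [← not_le, ceilDiv_le_iff_le_mul (by omega), not_le]
    have : (s - 1) * p = p * (s - 1) := mul_comm _ _
    omega
  by_cases hN : Nice (PP l)
  · exfalso
    obtain ⟨m, hm, hml⟩ := hM2 _ hN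
    have h2 := (hg m hm).trans (mx_mono (PP_mono hml) s t)
    have h3 : mx (PP l) s t < g := by
      rw [mx, Finset.sup_lt_iff hg0]
      intro x hx
      rw [mem_PP] at hx
      obtain ⟨h4, h5⟩ := hx
      exact (hlm _ _).1 h5
    omega
  · refine bad_of_not_nice hN (by omega) (by omega) fun p q hpq => ?_
    rw [mem_PP]
    have h2 : q < F := by
      have h3 : q * (t - 1) < (F - 1) * (t - 1) := by omega
      have h4 := lt_of_mul_lt_mul_right h3 (Nat.zero_le _)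
      omega
    exact ⟨h2, (hlm p ⟨q, h2⟩).2 hpq⟩

/-- **The asymptotic behaviour of `f(s,t)`, `s, t ≥ 2`.** -/
theorem asy : (∀ s t, 2 ≤ s → 2 ≤ t → ∀ d, Bad s t d) ∨
    ∃ (M : Finset (Finset (ℕ × ℕ))) (hM : M.Nonempty) (C : ℕ), (∀ P ∈ M, ∃ x ∈ P, 3 ≤ x.1 + x.2) ∧
      ∀ s t, 2 ≤ s → 2 ≤ t → Bad s t (M.inf' hM fun P => mx P s t) ∧
        ¬ Bad s t ((M.inf' hM fun P => mx P s t) + C) := by
  classical
  by_cases h : ∀ d, Bad 2 2 d
  · exact Or.inl fun s t hs ht d => (h d).mono_st hs ht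
  right
  push Not at h
  obtain ⟨F, hF⟩ := h
  obtain ⟨M, hM1, hM2⟩ := fin_min {l : Fin F → ℕ | Nice (PP l)}
  have hM2' : ∀ l : Fin F → ℕ, Nice (PP l) → ∃ m ∈ M, m ≤ l := fun l hl => hM2 l hl
  have hMne : M.Nonempty := by
    have hN : Nice (PP fun q : Fin F => F - q.1) := by
      by_contra hn
      refine hF (bad_of_not_nice hn (by norm_num) (by norm_num) fun p q hpq => ?_)
      rw [mem_PP]
      have h2 : p + q < F := by simpa using hpq
      exact ⟨by dsimp only; omega, by dsimp only; omega⟩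
    obtain ⟨m, hm, -⟩ := hM2' _ hN
    exact ⟨m, hm⟩
  set MM : Finset (Finset (ℕ × ℕ)) := M.image PP ∪ M.image (fun m => sw (PP m)) with hMM
  have hMMn : ∀ P ∈ MM, Nice P := by
    intro P hP
    rw [hMM, mem_union, mem_image, mem_image] at hP
    rcases hP with ⟨m, hm, rfl⟩ | ⟨m, hm, rfl⟩
    · exact hM1 m hm
    · exact Nice.sw (hM1 m hm)
  have hMMne : MM.Nonempty := (hMne.image PP).mono subset_union_left
  have hsym : ∀ s t, (MM.inf' hMMne fun P => mx P s t) ≤ MM.inf' hMMne fun P => mx P t s := by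
    intro s t
    rw [Finset.le_inf'_iff]
    intro P hP
    rw [← mx_sw P s t]
    refine Finset.inf'_le _ ?_
    rw [hMM, mem_union, mem_image, mem_image] at hP ⊢
    rcases hP with ⟨m, hm, rfl⟩ | ⟨m, hm, rfl⟩
    · exact Or.inr ⟨m, hm, rfl⟩
    · exact Or.inl ⟨m, hm, (sw_sw _).symm⟩
  have hlow : ∀ s t, 2 ≤ s → s ≤ t → Bad s t (MM.inf' hMMne fun P => mx P s t) := by
    intro s t hs hst
    refine low hF hM2' hs hst fun m hm => ?_
    exact Finset.inf'_le _ (mem_union_left _ (mem_image_of_mem _ hm))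
  choose! Cf hCf using hMMn
  refine ⟨MM, hMMne, ∑ P ∈ MM, Cf P, ?_, ?_⟩
  · intro P hP
    exact Nice.three ⟨Cf P, hCf P hP⟩
  · intro s t hs ht
    constructor
    · rcases le_total s t with hst | hst
      · exact hlow s t hs hst
      · exact ((hlow t s ht hst).symm).mono (hsym s t)
    · intro hb
      obtain ⟨P, hP, e⟩ := Finset.exists_mem_eq_inf' hMMne fun P => mx P s t
      rw [e] at hb
      refine hCf P hP s t (by omega) (by omega) (hb.mono (Nat.add_le_add_left ?_ _))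
      exact Finset.single_le_sum (fun _ _ => Nat.zero_le _) hP

end Pool.Agent.SplitLB
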