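import Pool.Agent.Lib.MP_7cd5ec_co.LB.Defs

/-!
# MP_7cd5ec_co, package Amp: the amplification lemma

A *hub system* on a finite type `H`: for every `a : H` two families `FA a`, `FB a` of subsets of `H`
(the sides on which `a` is killed), such that every partition of `H` into two nonempty sides kills one of
its hubs, and such that few members of the two families of one hub never cover `H`, up to less than `d`
elements.  Gates with the demands `s`, `t` and the outdegree `d` turn it into a digraph with all outdegrees
at least `d` which is not `(s,t)`-splittable.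
-/

set_option autoImplicit false

namespace Pool.Agent.SplitLB

open Finset

section gate

variable {H : Type} [Fintype H] [DecidableEq H]

/-- the elements which are covered by no member of the two families -/
def unc (p : Finset (Finset H) × Finset (Finset H)) : Finset H :=
  univ.filter fun x => (∀ X ∈ p.1, x ∉ X) ∧ ∀ Y ∈ p.2, x ∉ Y

theorem mem_unc {p : Finset (Finset H) × Finset (Finset H)} {x : H} :
    x ∈ unc p ↔ (∀ X ∈ p.1, x ∉ X) ∧ ∀ Y ∈ p.2, x ∉ Y := by
  simp [unc]

/-- few members of the two families do not cover `H`, up to less than `d` elements -/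
def Good (s t d : ℕ) (p : Finset (Finset H) × Finset (Finset H)) : Prop :=
  ∀ A ⊆ p.1, ∀ B ⊆ p.2, A.card * (s - 1) + B.card * (t - 1) < d → d ≤ (unc (A, B)).card

theorem Good.mono {s t d : ℕ} {p q : Finset (Finset H) × Finset (Finset H)} (h : Good s t d p)
    (h1 : q.1 ⊆ p.1) (h2 : q.2 ⊆ p.2) : Good s t d q := fun A hA B hB =>
  h A (hA.trans h1) B (hB.trans h2)

/-- the size of a pair of families -/
def sz (p : Finset (Finset H) × Finset (Finset H)) : ℕ := p.1.card + p.2.card

/-- the vertices: the hubs and the gates -/
abbrev GV (H : Type) (s t d : ℕ) : Type :=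
  H ⊕ ((Finset (Finset H) × Finset (Finset H)) × Fin (d + s + t))

/-- the arcs -/
def GE (s t d : ℕ) (FA FB : H → Finset (Finset H)) : GV H s t d → GV H s t d → Prop
  | .inl _, .inl _ => False
  | .inl a, .inr w => w.1 = (FA a, FB a)
  | .inr v, .inl x => Good s t d v.1 ∧ v.1.1.card * (s - 1) + v.1.2.card * (t - 1) < d ∧ x ∈ unc v.1
  | .inr v, .inr w =>
      (Good s t d v.1 ∧ ¬ v.1.1.card * (s - 1) + v.1.2.card * (t - 1) < d ∧
        ((∃ X ∈ v.1.1, w.1 = (v.1.1.erase X, v.1.2) ∧ w.2.1 < s - 1) ∨
         (∃ Y ∈ v.1.2, w.1 = (v.1.1, v.1.2.erase Y) ∧ w.2.1 < t - 1))) ∨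
      (¬ Good s t d v.1 ∧ w.1 = (∅, ∅))

variable {s t d : ℕ} {FA FB : H → Finset (Finset H)}

theorem sz_lt_of_GE (h0 : Good s t d (∅, (∅ : Finset (Finset H)))) {v w : (Finset (Finset H) ×
    Finset (Finset H)) × Fin (d + s + t)} (h : GE s t d FA FB (.inr v) (.inr w)) : sz w.1 < sz v.1 := by
  rcases h with ⟨-, -, ⟨X, hX, e, -⟩ | ⟨Y, hY, e, -⟩⟩ | ⟨hn, e⟩
  · rw [e, sz, sz]
    have := card_erase_lt_of_mem hX
    dsimp only
    omega
  · rw [e, sz, sz]
    have := card_erase_lt_of_mem hY
    dsimp only
    omega
  · rw [e, sz, sz, card_empty, Nat.add_zero]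
    by_contra hc
    push Not at hc
    have h1 : v.1.1 = ∅ := card_eq_zero.1 (by omega)
    have h2 : v.1.2 = ∅ := card_eq_zero.1 (by omega)
    apply hn
    have : v.1 = (∅, ∅) := Prod.ext h1 h2
    rw [this]
    exact h0

theorem GE_irrefl (h0 : Good s t d (∅, (∅ : Finset (Finset H)))) (v : GV H s t d) :
    ¬ GE s t d FA FB v v := by
  rcases v with a | v
  · exact fun h => h
  · exact fun h => lt_irrefl _ (sz_lt_of_GE h0 h)

/-- all outdegrees are at least `d` -/
theorem GE_outdeg (v : GV H s t d) : d ≤ {w | GE s t d FA FB v w}.ncard := by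
  classical
  -- the gates of one pair
  have key : ∀ p : Finset (Finset H) × Finset (Finset H),
      d ≤ {w : GV H s t d | ∃ i, w = .inr (p, i)}.ncard := by
    intro p
    have e : {w : GV H s t d | ∃ i, w = .inr (p, i)}
        = (fun i : Fin (d + s + t) => (Sum.inr (p, i) : GV H s t d)) '' Set.univ := by
      ext w
      constructor
      · rintro ⟨i, rfl⟩
        exact ⟨i, trivial, rfl⟩
      · rintro ⟨i, -, rfl⟩
        exact ⟨i, rfl⟩
    rw [e, Set.ncard_image_of_injective _ (fun i j h => by simpa using h), Set.ncard_univ,
      Nat.card_eq_fintype_card, Fintype.card_fin]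
    omega
  rcases v with a | ⟨p, i⟩
  · refine (key (FA a, FB a)).trans (Set.ncard_le_ncard ?_ (Set.toFinite _))
    rintro w ⟨i, rfl⟩
    exact rfl
  by_cases hg : Good s t d p
  · by_cases hsm : p.1.card * (s - 1) + p.2.card * (t - 1) < d
    · have h1 := hg p.1 (Subset.refl _) p.2 (Subset.refl _) hsm
      refine h1.trans ?_
      rw [← Set.ncard_coe_finset, ← Set.ncard_image_of_injective (f := (Sum.inl : H → GV H s t d)) _
        Sum.inl_injective]
      refine Set.ncard_le_ncard ?_ (Set.toFinite _)
      rintro w ⟨x, hx, rfl⟩
      exact ⟨hg, hsm, hx⟩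
    · -- two disjoint families of gates
      push Not at hsm
      set f : (p.1 × Fin (s - 1)) ⊕ (p.2 × Fin (t - 1)) → GV H s t d := fun x =>
        match x with
        | .inl y => .inr ((p.1.erase y.1.1, p.2), ⟨y.2.1, by have := y.2.2; omega⟩)
        | .inr y => .inr ((p.1, p.2.erase y.1.1), ⟨y.2.1, by have := y.2.2; omega⟩) with hf
      have hinj : Function.Injective f := by
        rintro (⟨⟨X, hX⟩, i1, hi1⟩ | ⟨⟨X, hX⟩, i1, hi1⟩) (⟨⟨Y, hY⟩, i2, hi2⟩ | ⟨⟨Y, hY⟩, i2, hi2⟩) h
        · simp only [hf, Sum.inr.injEq, Prod.mk.injEq, Fin.mk.injEq, and_true] at h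
          have hXY : X = Y := by
            by_contra hne
            have : X ∈ p.1.erase Y := mem_erase.2 ⟨hne, hX⟩
            rw [← h.1] at this
            exact (notMem_erase X p.1) this
          subst hXY
          simp [h.2]
        · simp only [hf, Sum.inr.injEq, Prod.mk.injEq, Fin.mk.injEq] at h
          exact absurd (h.1.1 ▸ notMem_erase X p.1) (by simpa using hX)
        · simp only [hf, Sum.inr.injEq, Prod.mk.injEq, Fin.mk.injEq] at h
          exact absurd (h.1.2 ▸ notMem_erase X p.2) (by simpa using hX)
        · simp only [hf, Sum.inr.injEq, Prod.mk.injEq, Fin.mk.injEq, true_and] at h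
          have hXY : X = Y := by
            by_contra hne
            have : X ∈ p.2.erase Y := mem_erase.2 ⟨hne, hX⟩
            rw [← h.1] at this
            exact (notMem_erase X p.2) this
          subst hXY
          simp [h.2]
      have hc : d ≤ (Set.range f).ncard := by
        rw [← Set.image_univ, Set.ncard_image_of_injective _ hinj, Set.ncard_univ,
          Nat.card_eq_fintype_card, Fintype.card_sum, Fintype.card_prod, Fintype.card_prod,
          Fintype.card_coe, Fintype.card_coe, Fintype.card_fin, Fintype.card_fin]
        exact hsm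
      refine hc.trans (Set.ncard_le_ncard ?_ (Set.toFinite _))
      rintro w ⟨(y | y), rfl⟩
      · exact Or.inl ⟨hg, by simpa using hsm, Or.inl ⟨y.1.1, y.1.2, rfl, y.2.2⟩⟩
      · exact Or.inl ⟨hg, by simpa using hsm, Or.inr ⟨y.1.1, y.1.2, rfl, y.2.2⟩⟩
  · refine (key (∅, ∅)).trans (Set.ncard_le_ncard ?_ (Set.toFinite _))
    rintro w ⟨j, rfl⟩
    exact Or.inr ⟨hg, rfl⟩

/-- A side: a gate whose first family contains the red hubs is not red. -/
theorem gate_A (hs : 1 ≤ s) (S : Set (GV H s t d))
    (hS : ∀ v ∈ S, s ≤ {w | w ∈ S ∧ GE s t d FA FB v w}.ncard) (X : Finset H)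
    (hX : ∀ a, a ∈ X ↔ (Sum.inl a : GV H s t d) ∈ S) :
    ∀ (n : ℕ) (p : Finset (Finset H) × Finset (Finset H)), sz p ≤ n → Good s t d p → X ∈ p.1 →
      ∀ i, (Sum.inr (p, i) : GV H s t d) ∉ S := by
  classical
  intro n
  induction n with
  | zero =>
      intro p hn _ hXp i
      have : p.1.card ≤ 0 := by rw [sz] at hn; omega
      exact absurd (card_pos.2 ⟨X, hXp⟩) (by omega)
  | succ n ih =>
      intro p hn hg hXp i hin
      have hv := hS _ hin
      by_cases hsm : p.1.card * (s - 1) + p.2.card * (t - 1) < d
      · have e : {w | w ∈ S ∧ GE s t d FA FB (Sum.inr (p, i)) w} = ∅ := by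
          ext w
          simp only [Set.mem_ofPred_eq, Set.mem_empty_iff_false, iff_false, not_and]
          rintro hw hE
          rcases w with x | w
          · exact (mem_unc.1 hE.2.2).1 X hXp ((hX x).2 hw)
          · rcases hE with ⟨-, h2, -⟩ | ⟨h1, -⟩
            · exact h2 hsm
            · exact h1 hg
        rw [e, Set.ncard_empty] at hv
        omega
      · have hsub : {w | w ∈ S ∧ GE s t d FA FB (Sum.inr (p, i)) w} ⊆
            (fun j : Fin (s - 1) => (Sum.inr ((p.1.erase X, p.2), ⟨j.1, by have := j.2; omega⟩) :
              GV H s t d)) '' Set.univ := by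
          rintro w ⟨hw, hE⟩
          rcases w with x | ⟨q, j⟩
          · exact absurd hE.2.1 hsm
          · rcases hE with ⟨-, -, ⟨X', hX', e, hj⟩ | ⟨Y', hY', e, hj⟩⟩ | ⟨h1, -⟩
            · dsimp only at e hj
              by_cases hXX : X' = X
              · subst hXX
                exact ⟨⟨j.1, hj⟩, trivial, by simp [e]⟩
              · exfalso
                refine ih q ?_ (hg.mono ?_ ?_) ?_ j hw
                · rw [e, sz]
                  have h3 : (p.1.erase X').card < p.1.card := card_erase_lt_of_mem hX'
                  rw [sz] at hn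
                  dsimp only
                  omega
                · rw [e]
                  exact erase_subset _ _
                · rw [e]
                · rw [e]
                  exact mem_erase.2 ⟨fun h => hXX h.symm, hXp⟩
            · dsimp only at e hj
              exfalso
              refine ih q ?_ (hg.mono ?_ ?_) ?_ j hw
              · rw [e, sz]
                have h3 : (p.2.erase Y').card < p.2.card := card_erase_lt_of_mem hY'
                rw [sz] at hn
                dsimp only
                omega
              · rw [e]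
              · rw [e]
                exact erase_subset _ _
              · rw [e]
                exact hXp
            · exact absurd hg h1
        have h1 := Set.ncard_le_ncard hsub (Set.toFinite _)
        have h2 : ((fun j : Fin (s - 1) => (Sum.inr ((p.1.erase X, p.2), ⟨j.1, by
            have := j.2; omega⟩) : GV H s t d)) '' Set.univ).ncard ≤ s - 1 := by
          refine (Set.ncard_image_le (Set.toFinite _)).trans ?_
          rw [Set.ncard_univ, Nat.card_eq_fintype_card, Fintype.card_fin]
        omega

/-- B side -/
theorem gate_B (ht : 1 ≤ t) (S : Set (GV H s t d))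
    (hS : ∀ v ∈ S, t ≤ {w | w ∈ S ∧ GE s t d FA FB v w}.ncard) (X : Finset H)
    (hX : ∀ a, a ∈ X ↔ (Sum.inl a : GV H s t d) ∈ S) :
    ∀ (n : ℕ) (p : Finset (Finset H) × Finset (Finset H)), sz p ≤ n → Good s t d p → X ∈ p.2 →
      ∀ i, (Sum.inr (p, i) : GV H s t d) ∉ S := by
  classical
  intro n
  induction n with
  | zero =>
      intro p hn _ hXp i
      have : p.2.card ≤ 0 := by rw [sz] at hn; omega
      exact absurd (card_pos.2 ⟨X, hXp⟩) (by omega)
  | succ n ih =>
      intro p hn hg hXp i hin
      have hv := hS _ hin
      by_cases hsm : p.1.card * (s - 1) + p.2.card * (t - 1) < d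
      · have e : {w | w ∈ S ∧ GE s t d FA FB (Sum.inr (p, i)) w} = ∅ := by
          ext w
          simp only [Set.mem_ofPred_eq, Set.mem_empty_iff_false, iff_false, not_and]
          rintro hw hE
          rcases w with x | w
          · exact (mem_unc.1 hE.2.2).2 X hXp ((hX x).2 hw)
          · rcases hE with ⟨-, h2, -⟩ | ⟨h1, -⟩
            · exact h2 hsm
            · exact h1 hg
        rw [e, Set.ncard_empty] at hv
        omega
      · have hsub : {w | w ∈ S ∧ GE s t d FA FB (Sum.inr (p, i)) w} ⊆
            (fun j : Fin (t - 1) => (Sum.inr ((p.1, p.2.erase X), ⟨j.1, by have := j.2; omega⟩) :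
              GV H s t d)) '' Set.univ := by
          rintro w ⟨hw, hE⟩
          rcases w with x | ⟨q, j⟩
          · exact absurd hE.2.1 hsm
          · rcases hE with ⟨-, -, ⟨X', hX', e, hj⟩ | ⟨Y', hY', e, hj⟩⟩ | ⟨h1, -⟩
            · dsimp only at e hj
              exfalso
              refine ih q ?_ (hg.mono ?_ ?_) ?_ j hw
              · rw [e, sz]
                have h3 : (p.1.erase X').card < p.1.card := card_erase_lt_of_mem hX'
                rw [sz] at hn
                dsimp only
                omega
              · rw [e]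
                exact erase_subset _ _
              · rw [e]
              · rw [e]
                exact hXp
            · dsimp only at e hj
              by_cases hXX : Y' = X
              · subst hXX
                exact ⟨⟨j.1, hj⟩, trivial, by simp [e]⟩
              · exfalso
                refine ih q ?_ (hg.mono ?_ ?_) ?_ j hw
                · rw [e, sz]
                  have h3 : (p.2.erase Y').card < p.2.card := card_erase_lt_of_mem hY'
                  rw [sz] at hn
                  dsimp only
                  omega
                · rw [e]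
                · rw [e]
                  exact erase_subset _ _
                · rw [e]
                  exact mem_erase.2 ⟨fun h => hXX h.symm, hXp⟩
            · exact absurd hg h1
        have h1 := Set.ncard_le_ncard hsub (Set.toFinite _)
        have h2 : ((fun j : Fin (t - 1) => (Sum.inr ((p.1, p.2.erase X), ⟨j.1, by
            have := j.2; omega⟩) : GV H s t d)) '' Set.univ).ncard ≤ t - 1 := by
          refine (Set.ncard_image_le (Set.toFinite _)).trans ?_
          rw [Set.ncard_univ, Nat.card_eq_fintype_card, Fintype.card_fin]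
        omega

/-- a set without hubs is not closed -/
theorem gate_free (h0 : Good s t d (∅, (∅ : Finset (Finset H)))) {u : ℕ} (hu : 1 ≤ u)
    (S : Set (GV H s t d)) (hS : ∀ v ∈ S, u ≤ {w | w ∈ S ∧ GE s t d FA FB v w}.ncard)
    (hH : ∀ a, (Sum.inl a : GV H s t d) ∉ S) : ∀ v, v ∉ S := by
  classical
  have key : ∀ (n : ℕ) (p : Finset (Finset H) × Finset (Finset H)), sz p ≤ n →
      ∀ i, (Sum.inr (p, i) : GV H s t d) ∉ S := by
    intro n
    induction n with
    | zero =>
        intro p hn i hin
        have hv := hS _ hin
        have e : {w | w ∈ S ∧ GE s t d FA FB (Sum.inr (p, i)) w} = ∅ := by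
          ext w
          simp only [Set.mem_ofPred_eq, Set.mem_empty_iff_false, iff_false, not_and]
          rintro hw hE
          rcases w with x | w
          · exact hH x hw
          · have := sz_lt_of_GE h0 hE
            dsimp only at this
            omega
        rw [e, Set.ncard_empty] at hv
        omega
    | succ n ih =>
        intro p hn i hin
        have hv := hS _ hin
        have e : {w | w ∈ S ∧ GE s t d FA FB (Sum.inr (p, i)) w} = ∅ := by
          ext w
          simp only [Set.mem_ofPred_eq, Set.mem_empty_iff_false, iff_false, not_and]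
          rintro hw hE
          rcases w with x | w
          · exact hH x hw
          · have := sz_lt_of_GE h0 hE
            dsimp only at this
            exact ih w.1 (by omega) w.2 hw
        rw [e, Set.ncard_empty] at hv
        omega
  rintro (a | v)
  · exact hH a
  · exact key _ v.1 le_rfl v.2

end gate

end Pool.Agent.SplitLB
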