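import Pool.Agent.Lib.MP_7cd5ec_co.Amp.Amp

/-!
# MP_7cd5ec_co, package Amp: hub systems give digraphs which are not splittable
-/

set_option autoImplicit false

namespace Pool.Agent.SplitLB

open Finset

variable {H : Type} [Fintype H] [DecidableEq H]

/-- **Hub systems.**  If few members of the two families of a hub never cover `H` up to less than `d`
elements, and every partition of `H` into two nonempty sides kills a hub, then some digraph with all
outdegrees at least `d` is not `(s,t)`-splittable. -/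
theorem bad_of_hub [Nonempty H] {s t d : ℕ} (hs : 1 ≤ s) (ht : 1 ≤ t)
    (FA FB : H → Finset (Finset H)) (hgood : ∀ a, Good s t d (FA a, FB a))
    (hkill : ∀ X : Finset H, X.Nonempty → Xᶜ.Nonempty →
      (∃ a ∈ X, X ∈ FA a) ∨ ∃ a ∈ Xᶜ, Xᶜ ∈ FB a) : Bad s t d := by
  classical
  have h0 : Good s t d (∅, (∅ : Finset (Finset H))) :=
    (hgood (Classical.arbitrary H)).mono (empty_subset _) (empty_subset _)
  have : Nonempty (GV H s t d) := ⟨Sum.inl (Classical.arbitrary H)⟩
  refine bad_of (GE s t d FA FB) (GE_irrefl h0) GE_outdeg ?_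
  intro S hSne hSne' hS hS'
  set X : Finset H := univ.filter fun a => (Sum.inl a : GV H s t d) ∈ S with hX
  have hXm : ∀ a, a ∈ X ↔ (Sum.inl a : GV H s t d) ∈ S := fun a => by simp [hX]
  have hXm' : ∀ a, a ∈ Xᶜ ↔ (Sum.inl a : GV H s t d) ∈ Sᶜ := fun a => by
    rw [mem_compl, hXm, Set.mem_compl_iff]
  by_cases hXe : X = ∅
  · obtain ⟨v, hv⟩ := hSne
    exact gate_free h0 hs S hS (fun a ha => by
      have := (hXm a).2 ha
      rw [hXe] at this
      exact notMem_empty _ this) v hv
  by_cases hXe' : Xᶜ = ∅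
  · obtain ⟨v, hv⟩ := hSne'
    exact gate_free h0 ht Sᶜ hS' (fun a ha => by
      have := (hXm' a).2 ha
      rw [hXe'] at this
      exact notMem_empty _ this) v hv
  rcases hkill X (nonempty_iff_ne_empty.2 hXe) (nonempty_iff_ne_empty.2 hXe') with
    ⟨a, ha, h1⟩ | ⟨a, ha, h1⟩
  · have h2 := hS (Sum.inl a) ((hXm a).1 ha)
    have e : {w | w ∈ S ∧ GE s t d FA FB (Sum.inl a) w} = ∅ := by
      ext w
      simp only [Set.mem_ofPred_eq, Set.mem_empty_iff_false, iff_false, not_and]
      rintro hw hE
      rcases w with z | ⟨q, j⟩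
      · exact hE
      · have hq : q = (FA a, FB a) := hE
        subst hq
        exact gate_A hs S hS X hXm _ _ le_rfl (hgood a) h1 j hw
    rw [e, Set.ncard_empty] at h2
    omega
  · have h2 := hS' (Sum.inl a) ((hXm' a).1 ha)
    have e : {w | w ∈ Sᶜ ∧ GE s t d FA FB (Sum.inl a) w} = ∅ := by
      ext w
      simp only [Set.mem_ofPred_eq, Set.mem_empty_iff_false, iff_false, not_and]
      rintro hw hE
      rcases w with z | ⟨q, j⟩
      · exact hE
      · have hq : q = (FA a, FB a) := hE
        subst hq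
        exact gate_B ht Sᶜ hS' Xᶜ hXm' _ _ le_rfl (hgood a) h1 j hw
    rw [e, Set.ncard_empty] at h2
    omega

end Pool.Agent.SplitLB
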