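import Pool.Agent.Lib.MP_7cd5ec_co.Amp.Amp
import Pool.Agent.Lib.MP_7cd5ec_co.LB.All

/-!
# MP_7cd5ec_co, package Amp: linear lower bounds for `f(s,t)`
-/

set_option autoImplicit false

namespace Pool.Agent.SplitLB

open Finset

theorem Bad.mono {s t m m' : ℕ} (h : Bad s t m) (hm : m' ≤ m) : Bad s t m' := by
  obtain ⟨n, Adj, hn, hirr, hdeg, hsp⟩ := h
  exact ⟨n, Adj, hn, hirr, fun v => hm.trans (hdeg v), hsp⟩

theorem Bad.mono_st {s t s' t' m : ℕ} (h : Bad s t m) (hs : s ≤ s') (ht : t ≤ t') : Bad s' t' m := by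
  obtain ⟨n, Adj, hn, hirr, hdeg, hsp⟩ := h
  refine ⟨n, Adj, hn, hirr, hdeg, fun ⟨A, h1, h2, h3, h4⟩ => hsp ⟨A, h1, h2, fun v hv => ?_,
    fun v hv => ?_⟩⟩
  · exact hs.trans (h3 v hv)
  · exact ht.trans (h4 v hv)

/-- the gain of the landed lower bound is unbounded -/
theorem big {c : ℝ} (hc : 0 < c) (D : ℕ) : ∃ K : ℕ, 1 ≤ K ∧ ∀ x : ℝ, Real.log 2 ≤ x →
    (D : ℝ) ≤ c * min (K : ℝ) (Real.sqrt (K * x)) := by
  have hl : 0 < Real.log 2 := Real.log_pos (by norm_num)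
  obtain ⟨K, hK⟩ := exists_nat_ge (max 1 (max (D / c) ((D / c) ^ 2 / Real.log 2)))
  have h1 : (1 : ℝ) ≤ K := (le_max_left _ _).trans hK
  have h2 : (D : ℝ) / c ≤ K := ((le_max_left _ _).trans (le_max_right _ _)).trans hK
  have h3 : ((D : ℝ) / c) ^ 2 / Real.log 2 ≤ K := ((le_max_right _ _).trans (le_max_right _ _)).trans hK
  refine ⟨K, by exact_mod_cast h1, fun x hx => ?_⟩
  rw [← div_le_iff₀' hc]
  refine le_min h2 (Real.le_sqrt_of_sq_le ?_)
  rw [div_le_iff₀ hl] at h3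
  exact h3.trans (mul_le_mul_of_nonneg_left hx (by positivity))

/-- digraphs which are not `(K, L K)`-splittable with an arbitrarily large gain -/
theorem gain (L : ℕ) (hL : 1 ≤ L) (D : ℕ) : ∃ K m : ℕ, 1 ≤ K ∧ Bad K (L * K) m ∧
    K + L * K + D ≤ m + 1 := by
  obtain ⟨c, hc, h⟩ := aFin
  obtain ⟨K, hK, hK2⟩ := big hc D
  obtain ⟨m, hb, hm⟩ := h K (L * K) hK (Nat.le_mul_of_pos_left K hL)
  refine ⟨K, m, hK, hb, ?_⟩
  have hKp : (0 : ℝ) < K := by exact_mod_cast hK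
  have h1 : Real.log 2 ≤ Real.log (2 * ((L * K : ℕ) : ℝ) / K) := by
    refine Real.log_le_log (by norm_num) ?_
    rw [le_div_iff₀ hKp]
    push_cast
    have : (1 : ℝ) ≤ L := by exact_mod_cast hL
    nlinarith
  have h2 := hK2 _ h1
  have h3 : ((K + L * K + D : ℕ) : ℝ) ≤ ((m + 1 : ℕ) : ℝ) := by
    rw [Nat.cast_add, Nat.cast_add, Nat.cast_add, Nat.cast_one]
    linarith
  exact_mod_cast h3

theorem lin1 {s t : ℕ} (hs : 1 ≤ s) (hst : s ≤ t) : Bad s t (3 * (s - 1)) := by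
  obtain ⟨K, m, hK, hb, hm⟩ := gain 1 le_rfl (3 * (s - 1))
  rw [one_mul] at hb hm
  refine amp hs (hs.trans hst) hb fun p q hpq => ?_
  have h1 : q * (s - 1) ≤ q * (t - 1) := Nat.mul_le_mul_left q (by omega)
  have h2 : (p + q) * (s - 1) < 3 * (s - 1) := by
    rw [add_mul]
    omega
  have h3 : p + q < 3 := lt_of_mul_lt_mul_right h2 (Nat.zero_le _)
  have h4 : (p + q) * (K - 1) ≤ 2 * (K - 1) := Nat.mul_le_mul_right _ (by omega)
  rw [add_mul] at h4
  omega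

theorem lin2 {s t : ℕ} (hs : 2 ≤ s) (hst : s ≤ t) :
    Bad s t (min (2 * (s - 1) + (t - 1)) (2 * (t - 1))) := by
  set d := min (2 * (s - 1) + (t - 1)) (2 * (t - 1)) with hd
  have hd1 : d ≤ 2 * (s - 1) + (t - 1) := min_le_left _ _
  have hd2 : d ≤ 2 * (t - 1) := min_le_right _ _
  obtain ⟨K, m, hK, hb, hm⟩ := gain (2 * t) (by omega) d
  refine amp (by omega) (by omega) hb fun p q hpq => ?_
  have hm' : (2 * t + 1) * K + d ≤ m + 1 := by
    have : (2 * t + 1) * K = K + 2 * t * K := by ring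
    omega
  rcases q with _ | _ | q
  · -- q = 0
    have h1 : p ≤ p * (s - 1) := Nat.le_mul_of_pos_right p (by omega)
    have h2 : p ≤ 2 * t := by omega
    have h3 : p * (K - 1) ≤ 2 * t * K := Nat.mul_le_mul h2 (Nat.sub_le _ _)
    have h4 : (2 * t + 1) * K = 2 * t * K + K := by ring
    omega
  · -- q = 1
    have h1 : p * (s - 1) < 2 * (s - 1) := by omega
    have h2 : p < 2 := lt_of_mul_lt_mul_right h1 (Nat.zero_le _)
    have h3 : p * (K - 1) ≤ 1 * (K - 1) := Nat.mul_le_mul_right _ (by omega)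
    have h4 : (2 * t + 1) * K = 2 * t * K + K := by ring
    have h5 : 1 ≤ 2 * t * K := Nat.mul_pos (by omega) hK
    omega
  · have h1 : 2 * (t - 1) ≤ (q + 1 + 1) * (t - 1) := Nat.mul_le_mul_right _ (by omega)
    omega

/-- The lower bound: for `1 ≤ s ≤ t` there is a digraph which is not `(s,t)`-splittable, all of whose
outdegrees are at least `max (s + t) (max (3 (s-1)) (min (2 (s-1) + (t-1)) (2 (t-1))))`. -/
theorem lin {s t : ℕ} (hs : 1 ≤ s) (hst : s ≤ t) :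
    Bad s t (max (s + t) (max (3 * (s - 1)) (min (2 * (s - 1) + (t - 1)) (2 * (t - 1))))) := by
  rcases max_cases (s + t) (max (3 * (s - 1)) (min (2 * (s - 1) + (t - 1)) (2 * (t - 1)))) with
    ⟨h, -⟩ | ⟨h, h'⟩
  · rw [h]
    exact tKn s t hs (hs.trans hst)
  rw [h]
  rcases max_cases (3 * (s - 1)) (min (2 * (s - 1) + (t - 1)) (2 * (t - 1))) with ⟨h2, -⟩ | ⟨h2, -⟩
  · rw [h2]
    exact lin1 hs hst
  · rw [h2]
    rcases Nat.lt_or_ge 1 s with h3 | h3
    · exact lin2 h3 hst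
    · have : s = 1 := by omega
      subst this
      exact (tKn 1 t le_rfl hst).mono ((min_le_left _ _).trans (by omega))

end Pool.Agent.SplitLB
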