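import Pool.Agent.Lib.MP_7cd5ec_co.Amp.Asy

/-!
# MP_7cd5ec_co, package Amp: the diagonal, and the case `s = 1`
-/

set_option autoImplicit false

namespace Pool.Agent.SplitLB

open Finset

/-- on the diagonal the function is linear -/
theorem inf_diag (M : Finset (Finset (ℕ × ℕ))) (hM : M.Nonempty)
    (h3 : ∀ P ∈ M, ∃ x ∈ P, 3 ≤ x.1 + x.2) :
    ∃ R, 3 ≤ R ∧ ∀ s, (M.inf' hM fun P => mx P s s) = R * (s - 1) := by
  have e1 : ∀ (P : Finset (ℕ × ℕ)) (s : ℕ), mx P s s = (P.sup fun x => x.1 + x.2) * (s - 1) := by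
    intro P s
    refine le_antisymm ?_ ?_
    · rw [mx, Finset.sup_le_iff]
      intro x hx
      rw [← add_mul]
      exact Nat.mul_le_mul_right _ (Finset.le_sup (f := fun x : ℕ × ℕ => x.1 + x.2) hx)
    · rcases P.eq_empty_or_nonempty with rfl | hP
      · simp
      · obtain ⟨x, hx, e⟩ := Finset.exists_mem_eq_sup P hP fun x => x.1 + x.2
        rw [e, add_mul]
        exact le_mx hx s s
  refine ⟨M.inf' hM fun P => P.sup fun x => x.1 + x.2, ?_, fun s => ?_⟩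
  · rw [Finset.le_inf'_iff]
    intro P hP
    obtain ⟨x, hx, h⟩ := h3 P hP
    exact h.trans (Finset.le_sup (f := fun x : ℕ × ℕ => x.1 + x.2) hx)
  · refine le_antisymm ?_ ?_
    · obtain ⟨P, hP, e⟩ := Finset.exists_mem_eq_inf' hM fun P => P.sup fun x => x.1 + x.2
      rw [e]
      exact (Finset.inf'_le _ hP).trans (e1 P s).le
    · rw [Finset.le_inf'_iff]
      intro P hP
      rw [e1]
      exact Nat.mul_le_mul_right _ (Finset.inf'_le _ hP)

/-- The case `s = 1`. -/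
theorem asy1 : (∀ t, 2 ≤ t → ∀ d, Bad 1 t d) ∨
    ∃ R C : ℕ, 1 ≤ R ∧ ∀ t, 2 ≤ t → Bad 1 t (R * (t - 1)) ∧ ¬ Bad 1 t (R * (t - 1) + C) := by
  classical
  by_cases h : ∀ d, Bad 1 2 d
  · exact Or.inl fun t ht d => (h d).mono_st le_rfl ht
  right
  push Not at h
  obtain ⟨F, hF⟩ := h
  set Ni : ℕ → Prop := fun Q => ∃ C, ∀ t, 1 ≤ t → ¬ Bad 1 t (Q * (t - 1) + C) with hNi
  have key : ∀ Q, ¬ Ni Q → ∀ t, 1 ≤ t → Bad 1 t ((Q + 1) * (t - 1)) := by
    intro Q hQ t ht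
    rw [hNi] at hQ
    push Not at hQ
    obtain ⟨t0, ht0, hb⟩ := hQ ((Q + 1) * (t - 1))
    refine amp le_rfl ht hb fun p q hpq => ?_
    have h1 : q * (t - 1) < (Q + 1) * (t - 1) := by simpa using hpq
    have h2 : q < Q + 1 := lt_of_mul_lt_mul_right h1 (Nat.zero_le _)
    have h3 : q * (t0 - 1) ≤ Q * (t0 - 1) := Nat.mul_le_mul_right _ (by omega)
    simpa using h3
  have hex : ∃ Q, Ni Q := by
    refine ⟨F, ?_⟩
    by_contra hn
    exact hF ((key F hn 2 (by norm_num)).mono (by omega))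
  set R := Nat.find hex with hR
  have hR1 : Ni R := Nat.find_spec hex
  have hRpos : 1 ≤ R := by
    by_contra hc
    have h0 : R = 0 := by omega
    rw [h0] at hR1
    obtain ⟨C, hC⟩ := hR1
    exact hC (C + 1) (by omega) ((tKn 1 (C + 1) le_rfl (by omega)).mono (by omega))
  obtain ⟨C, hC⟩ := hR1
  refine ⟨R, C, hRpos, fun t ht => ⟨?_, hC t (by omega)⟩⟩
  have h1 : ¬ Ni (R - 1) := Nat.find_min hex (by omega)
  have h2 := key _ h1 t (by omega)
  have h3 : R - 1 + 1 = R := by omega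
  rwa [h3] at h2

end Pool.Agent.SplitLB
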