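import Mathlib

/-!
# MP_7cd5ec_co, package Amp: digraphs of large girth in which any `r` vertices have a common in-neighbour

The vertices are the functions `z` on the words `w : ZMod p → Fin r` with values in `ZMod g`; there is an
arc from `z` to `x` if for some letter `b` one has `x (σ w) = z w + 1` for all `w` with `w 0 = b`, where
`σ` is the shift.
-/

set_option autoImplicit false

namespace Pool.Agent.SplitLB

namespace Per

variable {r p g : ℕ}

/-- the periodic words -/
abbrev Word (r p : ℕ) : Type := ZMod p → Fin r

/-- the vertices -/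
abbrev Vert (r p g : ℕ) : Type := Word r p → ZMod g

/-- the shift by `m` -/
def sh (m : ZMod p) (w : Word r p) : Word r p := fun i => w (i + m)

theorem sh_sh (m n : ZMod p) (w : Word r p) : sh m (sh n w) = sh (m + n) w := by
  funext i
  simp only [sh]
  congr 1
  ring

theorem sh_zero (w : Word r p) : sh 0 w = w := by
  funext i
  simp [sh]

/-- the arcs with the letter `b` -/
def ArcL (b : Fin r) (z x : Vert r p g) : Prop := ∀ w : Word r p, w 0 = b → x (sh 1 w) = z w + 1

/-- the arcs -/
def Arc (z x : Vert r p g) : Prop := ∃ b, ArcL b z x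

/-- any `r` vertices have a common in-neighbour -/
theorem exists_pred (x : Fin r → Vert r p g) : ∃ z : Vert r p g, ∀ b, Arc z (x b) := by
  refine ⟨fun w => x (w 0) (sh 1 w) - 1, fun b => ⟨b, fun w hw => ?_⟩⟩
  dsimp only
  rw [hw]
  ring

/-- there are no short closed walks -/
theorem no_closed {j : ℕ} (hj0 : 0 < j) (hjg : j < g) (hjp : j ∣ p) (x : ℕ → Vert r p g)
    (hx : ∀ n, n < j → Arc (x n) (x (n + 1))) (hc : x j = x 0) : False := by
  have : NeZero j := ⟨hj0.ne'⟩
  obtain ⟨b0, -⟩ := hx 0 hj0
  have : Nonempty (Fin r) := ⟨b0⟩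
  choose! β hβ using hx
  set w : Word r p := fun i => β ((ZMod.castHom hjp (ZMod j) i).val) with hw
  have key : ∀ n, n ≤ j → x n (sh (n : ZMod p) w) = x 0 w + n := by
    intro n
    induction n with
    | zero => intro _; simp [sh_zero]
    | succ n ih =>
        intro hn
        have h1 := hβ n (by omega) (sh (n : ZMod p) w) (by
          simp only [sh, hw, zero_add, map_natCast]
          rw [ZMod.val_natCast_of_lt (by omega)])
        rw [sh_sh] at h1
        have e : ((n + 1 : ℕ) : ZMod p) = 1 + (n : ZMod p) := by push_cast; ring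
        rw [e, h1, ih (by omega)]
        push_cast
        ring
  have h1 := key j le_rfl
  have h2 : sh (j : ZMod p) w = w := by
    funext i
    simp only [sh, hw, map_add, map_natCast, ZMod.natCast_self, add_zero]
  rw [h2, hc] at h1
  have h3 : ((j : ℕ) : ZMod g) = 0 := by
    have := h1.symm
    rwa [add_eq_left] at this
  rw [ZMod.natCast_eq_zero_iff] at h3
  exact absurd (Nat.le_of_dvd hj0 h3) (by omega)

/-- A set of vertices which is closed under in-neighbours and nonempty is everything. -/
theorem closed_univ (hr : 2 ≤ r) (hp : 0 < p) (S : Set (Vert r p g)) (hS : S.Nonempty)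
    (hcl : ∀ z x, Arc z x → x ∈ S → z ∈ S) (y : Vert r p g) : y ∈ S := by
  classical
  obtain ⟨a, ha⟩ := hS
  -- the letters
  set β : ℕ → Fin r := fun i => if i = 0 then ⟨0, by omega⟩ else ⟨1, by omega⟩ with hβ
  set back : ℕ → Word r p → Prop := fun i u => ∀ j, j < i → u (-((j : ZMod p) + 1)) = β (i - 1 - j)
    with hback
  set Y : ℕ → Vert r p g := fun i u =>
    if back i u then y (sh (-(i : ZMod p)) u) + i
    else a (sh ((p + 1 : ℕ) - (i : ZMod p)) u) - (((p + 1 : ℕ) : ZMod g) - i) with hY
  have hstep : ∀ i u, u 0 = β i → (back (i + 1) (sh 1 u) ↔ back i u) := by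
    intro i u hu
    constructor
    · intro h j hj
      have h1 := h (j + 1) (by omega)
      simp only [sh] at h1
      have e1 : (-(((j + 1 : ℕ) : ZMod p) + 1) + 1) = -((j : ZMod p) + 1) := by push_cast; ring
      rw [e1] at h1
      rw [h1]
      congr 1
      omega
    · intro h j hj
      rcases j with _ | j
      · simp only [sh]
        have e1 : (-(((0 : ℕ) : ZMod p) + 1) + 1) = 0 := by push_cast; ring
        rw [e1, hu]
        congr 1
      · have h1 := h j (by omega)
        simp only [sh]
        have e1 : (-(((j + 1 : ℕ) : ZMod p) + 1) + 1) = -((j : ZMod p) + 1) := by push_cast; ring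
        rw [e1, h1]
        congr 1
        omega
  have harc : ∀ i, Arc (Y i) (Y (i + 1)) := by
    intro i
    refine ⟨β i, fun u hu => ?_⟩
    simp only [hY, hstep i u hu]
    by_cases hb : back i u
    · rw [if_pos hb, if_pos hb, sh_sh]
      have e1 : (-((i + 1 : ℕ) : ZMod p) + 1) = -(i : ZMod p) := by push_cast; ring
      rw [e1]
      push_cast
      ring
    · rw [if_neg hb, if_neg hb, sh_sh]
      have e1 : (((p + 1 : ℕ) : ZMod p) - ((i + 1 : ℕ) : ZMod p) + 1)
          = ((p + 1 : ℕ) : ZMod p) - (i : ZMod p) := by push_cast; ring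
      rw [e1]
      push_cast
      ring
  have hend : Y (p + 1) = a := by
    funext u
    have hb : ¬ back (p + 1) u := by
      intro h
      have h1 := h 0 (by omega)
      have h2 := h p (by omega)
      have e1 : (-((p : ZMod p) + 1)) = (-(((0 : ℕ) : ZMod p) + 1)) := by simp
      rw [e1, h1] at h2
      simp only [hβ] at h2
      rw [if_neg (by omega), if_pos (by omega)] at h2
      simp at h2
    simp only [hY]
    rw [if_neg hb]
    simp [sh_zero]
  have hstart : Y 0 = y := by
    funext u
    simp only [hY]
    rw [if_pos (by intro j hj; omega)]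
    simp [sh_zero]
  have hall : ∀ n, n ≤ p + 1 → Y (p + 1 - n) ∈ S := by
    intro n
    induction n with
    | zero => intro _; simpa [hend] using ha
    | succ n ih =>
        intro hn
        have h1 := ih (by omega)
        have e : p + 1 - n = (p + 1 - (n + 1)) + 1 := by omega
        rw [e] at h1
        exact hcl _ _ (harc _) h1
  have := hall (p + 1) le_rfl
  simpa [hstart] using this

end Per

end Pool.Agent.SplitLB
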