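import Pool.Agent.Lib.MP_7cd5ec_co.Amp.Hub
import Pool.Agent.Lib.MP_7cd5ec_co.Amp.One
import Pool.Agent.Lib.MP_7cd5ec_co.Amp.Per

/-!
# MP_7cd5ec_co, package Amp: `f(s,t) ≥ 2 t - 1`
-/

set_option autoImplicit false

namespace Pool.Agent.SplitLB

open Finset

/-- A digraph without closed walks of length less than `k`, in which any `k` vertices have a common
in-neighbour and in which every nonempty set closed under in-neighbours is everything: every vertex is
replaced by `k` copies.  Every nonempty set of copies with an out-neighbour inside for each member, which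
contains all the vertices with at least `k` out-neighbours inside, is everything. -/
theorem percolates {V : Type} [Fintype V] (E : V → V → Prop) {k : ℕ} (hk : 0 < k)
    (hP : ∀ x : Fin k → V, ∃ z, ∀ b, E z (x b))
    (hG : ∀ j, 0 < j → j < k → ∀ x : ℕ → V, (∀ n, n < j → E (x n) (x (n + 1))) → x j = x 0 → False)
    (hC : ∀ S : Set V, S.Nonempty → (∀ z x, E z x → x ∈ S → z ∈ S) → ∀ y, y ∈ S)
    (X : Set (V × Fin k)) (hX : X.Nonempty) (h1 : ∀ a ∈ X, ∃ c ∈ X, E a.1 c.1)
    (h2 : ∀ a, k ≤ {c | c ∈ X ∧ E a.1 c.1}.ncard → a ∈ X) (a : V × Fin k) : a ∈ X := by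
  classical
  -- a walk in `X`
  obtain ⟨a0, ha0⟩ := hX
  choose! f hf hfE using h1
  set x : ℕ → V × Fin k := fun n => f^[n] a0 with hx
  have hxs : ∀ n, x (n + 1) = f (x n) := fun n => by
    simp only [hx, Function.iterate_succ_apply']
  have hxX : ∀ n, x n ∈ X := by
    intro n
    induction n with
    | zero => simpa [hx] using ha0
    | succ n ih => rw [hxs]; exact hf _ ih
  have hxE : ∀ n, E (x n).1 (x (n + 1)).1 := by
    intro n
    rw [hxs]
    exact hfE _ (hxX n)
  -- its first `k` vertices are different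
  have hinj : ∀ i j, i < j → j < k → (x i).1 ≠ (x j).1 := by
    intro i j hij hj he
    refine hG (j - i) (by omega) (by omega) (fun n => (x (i + n)).1) (fun n _ => hxE (i + n)) ?_
    show (x (i + (j - i))).1 = (x (i + 0)).1
    rw [show i + (j - i) = j by omega, Nat.add_zero, he]
  obtain ⟨z, hz⟩ := hP fun b => (x b.1).1
  -- the clusters inside `X`
  set S : Set V := {v | ∀ i : Fin k, (v, i) ∈ X} with hS
  have hzS : z ∈ S := by
    intro i
    refine h2 _ ?_
    have hsub : (fun b : Fin k => x b.1) '' Set.univ ⊆ {c | c ∈ X ∧ E z c.1} := by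
      rintro _ ⟨b, -, rfl⟩
      exact ⟨hxX _, hz b⟩
    have hc : ((fun b : Fin k => x b.1) '' Set.univ).ncard = k := by
      rw [Set.ncard_image_of_injective, Set.ncard_univ, Nat.card_eq_fintype_card, Fintype.card_fin]
      intro b c hbc
      by_contra hne
      rcases lt_or_gt_of_ne (fun h => hne (Fin.ext h) : b.1 ≠ c.1) with h | h
      · exact hinj _ _ h c.2 (congrArg Prod.fst hbc)
      · exact hinj _ _ h b.2 (congrArg Prod.fst hbc).symm
    exact hc.symm.le.trans (Set.ncard_le_ncard hsub (Set.toFinite _))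
  refine hC S ⟨z, hzS⟩ (fun v w hvw hw i => h2 _ ?_) a.1 a.2
  have hsub : (fun j : Fin k => (w, j)) '' Set.univ ⊆ {c : V × Fin k | c ∈ X ∧ E v c.1} := by
    rintro _ ⟨j, -, rfl⟩
    exact ⟨hw j, hvw⟩
  have hc : ((fun j : Fin k => (w, j)) '' Set.univ).ncard = k := by
    rw [Set.ncard_image_of_injective, Set.ncard_univ, Nat.card_eq_fintype_card, Fintype.card_fin]
    intro b c hbc
    simpa using hbc
  exact hc.symm.le.trans (Set.ncard_le_ncard hsub (Set.toFinite _))

/-- the hub system of a percolating digraph -/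
theorem bad_of_percolates {H : Type} [Fintype H] [Nonempty H] (E : H → H → Prop) {s t k : ℕ}
    (hs : 1 ≤ s) (ht : 1 ≤ t) (hkt : k ≤ 2 * (t - 1)) (hdeg : ∀ a, k ≤ {c | E a c}.ncard)
    (hp : ∀ X : Set H, X.Nonempty → (∀ a ∈ X, ∃ c ∈ X, E a c) →
      (∀ a, k ≤ {c | c ∈ X ∧ E a c}.ncard → a ∈ X) → ∀ a, a ∈ X) : Bad s t k := by
  classical
  set N : H → Finset H := fun a => univ.filter (E a) with hN
  have hNc : ∀ a, k ≤ (N a).card := by
    intro a
    refine (hdeg a).trans (le_of_eq ?_)
    rw [← Set.ncard_coe_finset]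
    congr 1
    ext w
    simp [hN]
  refine bad_of_hub hs ht (fun a => univ.filter fun X => N a ∩ X = ∅)
    (fun a => univ.filter fun Y => k ≤ (N a \ Y).card) ?_ ?_
  · intro a A hA B hB hlt
    have hA' : ∀ X ∈ A, N a ∩ X = ∅ := fun X hX => (mem_filter.1 (hA hX)).2
    have hB' : ∀ Y ∈ B, k ≤ (N a \ Y).card := fun Y hY => (mem_filter.1 (hB hY)).2
    have hB1 : B.card ≤ 1 := by
      by_contra hc
      have : 2 * (t - 1) ≤ B.card * (t - 1) := Nat.mul_le_mul_right _ (by omega)
      omega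
    rcases Nat.eq_zero_or_pos B.card with h0 | h0
    · rw [card_eq_zero] at h0
      subst h0
      refine (hNc a).trans (card_le_card fun x hx => ?_)
      rw [mem_unc]
      refine ⟨fun X hX hxX => ?_, fun Y hY => absurd hY (notMem_empty _)⟩
      have := mem_inter.2 ⟨hx, hxX⟩
      rw [hA' X hX] at this
      exact notMem_empty _ this
    · obtain ⟨Y, rfl⟩ := card_eq_one.1 (le_antisymm hB1 h0)
      refine (hB' Y (mem_singleton_self _)).trans (card_le_card fun x hx => ?_)
      rw [mem_sdiff] at hx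
      rw [mem_unc]
      refine ⟨fun X hX hxX => ?_, fun Y' hY' => ?_⟩
      · have := mem_inter.2 ⟨hx.1, hxX⟩
        rw [hA' X hX] at this
        exact notMem_empty _ this
      · rw [mem_singleton.1 hY']
        exact hx.2
  · intro X hX hX'
    by_contra hc
    rw [not_or] at hc
    obtain ⟨hc1, hc2⟩ := hc
    push Not at hc1 hc2
    obtain ⟨b, hb⟩ := hX'
    refine (mem_compl.1 hb) ?_
    have := hp (X : Set H) (by simpa using hX) ?_ ?_ b
    · simpa using this
    · intro a ha
      have h1 := hc1 a (by simpa using ha)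
      rw [mem_filter] at h1
      have h2 : (N a ∩ X).Nonempty := by
        rw [nonempty_iff_ne_empty]
        exact fun h => h1 ⟨mem_univ _, h⟩
      obtain ⟨c, hc⟩ := h2
      rw [mem_inter] at hc
      exact ⟨c, by simpa using hc.2, by simpa [hN] using hc.1⟩
    · intro a ha
      by_contra hna
      have h1 := hc2 a (mem_compl.2 (by simpa using hna))
      rw [mem_filter] at h1
      refine h1 ⟨mem_univ _, ha.trans (le_of_eq ?_)⟩
      rw [← Set.ncard_coe_finset]
      congr 1
      ext c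
      simp [hN, and_comm]

/-- `f(s,t) > 2 (t - 1)` -/
theorem two {s t : ℕ} (hs : 1 ≤ s) (hst : s ≤ t) : Bad s t (2 * (t - 1)) := by
  rcases Nat.lt_or_ge t 2 with h | h
  · exact (tKn s t hs (hs.trans hst)).mono (by omega)
  set k := 2 * (t - 1) with hk
  have hk2 : 2 ≤ k := by omega
  have : NeZero k := ⟨by omega⟩
  have : NeZero (Nat.factorial k) := ⟨(Nat.factorial_pos k).ne'⟩
  set V := Per.Vert k (Nat.factorial k) k with hV
  classical
  have : Fintype V := inferInstanceAs (Fintype ((ZMod (Nat.factorial k) → Fin k) → ZMod k))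
  have hne : Nonempty V := ⟨fun _ => 0⟩
  have hpred : ∀ x : Fin k → V, ∃ z : V, ∀ b, Per.Arc z (x b) := fun x => Per.exists_pred x
  refine bad_of_percolates (H := V × Fin k) (fun a c => Per.Arc a.1 c.1) hs (by omega) le_rfl ?_ ?_
  · rintro ⟨v, i⟩
    -- `v` has an out-neighbour
    obtain ⟨x, hx⟩ : ∃ x : V, Per.Arc v x := by
      refine ⟨fun u => v (Per.sh (-1) u) + 1, ⟨0, by omega⟩, fun w _ => ?_⟩
      dsimp only
      rw [Per.sh_sh, neg_add_cancel, Per.sh_zero]
    have hsub : (fun j : Fin k => (x, j)) '' Set.univ ⊆ {c : V × Fin k | Per.Arc v c.1} := by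
      rintro _ ⟨j, -, rfl⟩
      exact hx
    have hc : ((fun j : Fin k => (x, j)) '' Set.univ).ncard = k := by
      rw [Set.ncard_image_of_injective, Set.ncard_univ, Nat.card_eq_fintype_card, Fintype.card_fin]
      intro b c hbc
      simpa using hbc
    calc k = _ := hc.symm
      _ ≤ _ := Set.ncard_le_ncard hsub (Set.toFinite _)
  · intro X hX h1 h2 a
    refine percolates (V := V) Per.Arc (by omega) hpred ?_ ?_ X hX h1 h2 a
    · intro j hj0 hjk x hx hc
      exact Per.no_closed hj0 hjk (Nat.dvd_factorial hj0 hjk.le) x hx hc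
    · intro S hS hcl y
      exact Per.closed_univ hk2 (Nat.factorial_pos k) S hS hcl y

/-- The lower bound: for `1 ≤ s ≤ t` there is a digraph which is not `(s,t)`-splittable, all of whose
outdegrees are at least `max (s + t) (max (3 (s-1)) (2 (t-1)))`. -/
theorem lin' {s t : ℕ} (hs : 1 ≤ s) (hst : s ≤ t) :
    Bad s t (max (s + t) (max (3 * (s - 1)) (2 * (t - 1)))) := by
  rcases max_cases (s + t) (max (3 * (s - 1)) (2 * (t - 1))) with ⟨h, -⟩ | ⟨h, -⟩
  · rw [h]
    exact tKn s t hs (hs.trans hst)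
  rw [h]
  rcases max_cases (3 * (s - 1)) (2 * (t - 1)) with ⟨h2, -⟩ | ⟨h2, -⟩
  · rw [h2]
    exact lin1 hs hst
  · rw [h2]
    exact two hs hst

/-- The case `s = 1`. -/
theorem asy1' : (∀ t, 2 ≤ t → ∀ d, Bad 1 t d) ∨
    ∃ R C : ℕ, 2 ≤ R ∧ ∀ t, 2 ≤ t → Bad 1 t (R * (t - 1)) ∧ ¬ Bad 1 t (R * (t - 1) + C) := by
  rcases asy1 with h | ⟨R, C, -, h⟩
  · exact Or.inl h
  · refine Or.inr ⟨R, C, ?_, h⟩
    by_contra hc
    have h1 := (h (C + 2) (by omega)).2
    refine h1 ((two le_rfl (by omega : 1 ≤ C + 2)).mono ?_)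
    have h2 : R * (C + 2 - 1) ≤ 1 * (C + 2 - 1) := Nat.mul_le_mul_right _ (by omega)
    omega

end Pool.Agent.SplitLB
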